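import Pool.Agent.Lib.MP_cd3a7b_ag.H8Chain
import Pool.Agent.Lib.MP_cd3a7b_ag.H8Free

/-!
Puncturing for manifolds that are chain connected by free entire curves.
-/

open Metric Set Filter Topology Pool.Agent.Lib.MP_cd3a7b_ag
open scoped Manifold

/-- Let `X` be a complex manifold of dimension `n` and `Z` a closed subset of Hausdorff dimension
less than `2n - 2`. If the set of points joined to `f 0` by chains of free curves has an interior
point, the free curve `f` is a locally uniform limit of non-constant entire curves that avoid `Z`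
and whose image is dense in that set. -/
theorem Pool.Agent.Results.MP_cd3a7b_ag.ChainFree.result
    {E : Type} [NormedAddCommGroup E] [NormedSpace ℂ E] [FiniteDimensional ℂ E]
    {X : Type} [TopologicalSpace X] [ChartedSpace E X] [IsManifold 𝓘(ℂ, E) 1 X] [T2Space X]
    [SecondCountableTopology X] {Z : Set X} (hZ : IsClosed Z)
    (hd : ∀ x : X, dimH (chartAt E x '' (Z ∩ (chartAt E x).source)) + 2 < 2 * Module.finrank ℂ E)
    {f : C(ℂ, X)} (hf : IsFree E f) (hi : (interior (ChainClass E (f 0))).Nonempty) :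
    f ∈ closure {g : C(ℂ, X) | MDifferentiable 𝓘(ℂ, ℂ) 𝓘(ℂ, E) g ∧ (∃ a b, g a ≠ g b) ∧
      (∀ t, g t ∉ Z) ∧ ChainClass E (f 0) ⊆ closure (range g)} := by
  have h1 : ∀ g : ℂ → X, IsFree E g → ∃ g' ∈ Ctr E X, ⇑g' = g := by
    rintro g ⟨m, S, r, t₀, hr, k1, k2, k3⟩
    have k4 : Spray E S := by
      filter_upwards [ball_mem_nhds (0 : Fin m → ℂ) hr] with p hp t
      exact MDifferentiableOn.mdifferentiableAt k1
        ((isOpen_univ.prod isOpen_ball).mem_nhds ⟨trivial, hp⟩)
    exact ⟨⟨fun t => S (t, 0), continuous_iff_continuousAt.2 fun t =>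
      (Hol.pre (L := fun t => (t, 0)) (k4.self_of_nhds t) (by fun_prop)).continuousAt⟩,
      mem_ctr k4 k3 fun _ => rfl, funext k2⟩
  have h2 : ChainClass E (f 0) ⊆ {y | Relation.ReflTransGen (Lnk E) (f 0) y} := fun y hy => by
    induction hy with
    | refl => exact .refl
    | tail _ h ih =>
      obtain ⟨g, k1, k2, k3⟩ := h
      obtain ⟨g', k4, rfl⟩ := h1 g k1
      exact ih.tail ⟨g', k4, k2, k3⟩
  obtain ⟨f', h3, h4⟩ := h1 f hf
  obtain rfl : f' = f := DFunLike.coe_injective h4
  refine closure_mono ?_ (chain_curve hZ hd h3 (hi.mono (interior_mono h2)))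
  rintro g ⟨g1, g2, g3⟩
  refine ⟨g1, ?_, g2, fun y hy => g3 y (h2 hy)⟩
  by_contra h5
  push Not at h5
  obtain ⟨x, hx⟩ := hi
  have hE : Nontrivial E := by
    refine Module.nontrivial_of_finrank_pos (R := ℂ) (Nat.pos_of_ne_zero fun h3 => ?_)
    simpa [h3] using hd x
  have h6 : closure (range g) ⊆ {g 0} :=
    closure_minimal (by rintro _ ⟨t, rfl⟩; exact h5 t 0) isClosed_singleton
  have h7 : ∀ᶠ y in 𝓝 x, chartAt E x y = chartAt E x x := by
    filter_upwards [mem_interior_iff_mem_nhds.1 hx] with y hy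
    rw [h6 (g3 y (h2 hy)), ← h6 (g3 x (h2 (interior_subset hx)))]
  have h8 : ∀ᶠ e in 𝓝 (chartAt E x x), e = chartAt E x x := by
    rwa [← (chartAt E x).map_nhds_eq (mem_chart_source E x), eventually_map]
  have := Module.punctured_nhds_neBot ℂ E (chartAt E x x)
  obtain ⟨e, k1, k2⟩ := ((h8.filter_mono (nhdsWithin_le_nhds (s := {chartAt E x x}ᶜ))).and
    self_mem_nhdsWithin).exists
  exact k2 k1
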