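import Pool.Agent.Lib.MP_cd3a7b_ag.H30Cy

/-!
Puncturing for all smooth Calabi-Yau double covers of projective space.
-/

open MvPolynomial

/-- Let `n ≥ 2`, `F` any smooth form of degree `2 n + 2` in `n + 1` variables, `X` the Calabi-Yau
`n`-fold `w ^ 2 = F v` in weighted projective space `P(1, ..., 1, n + 1)` and `Z` the zero set of
a family `S` of weighted homogeneous polynomials that generates an ideal of height at least three.
There is an entire curve `t ↦ [v t : w t]` in `X` that avoids `Z` and is Zariski dense in `X`. -/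
theorem Pool.Agent.Results.MP_cd3a7b_ag.EveryCalabiYauDoubleCover.result (n : ℕ) (hn : 2 ≤ n)
    (F : MvPolynomial (Fin (n + 1)) ℂ) (hF : F.IsHomogeneous (2 * n + 2))
    (hs : ∀ p : Fin (n + 1) → ℂ, p ≠ 0 → eval p F = 0 → ∃ i, eval p (pderiv i F) ≠ 0)
    (S : Set (MvPolynomial (Option (Fin (n + 1))) ℂ))
    (hS : ∀ G ∈ S, ∃ k, G.IsWeightedHomogeneous (fun o => o.elim (n + 1) fun _ => 1) k)
    (h3 : 3 ≤ (Ideal.span S).height) :
    ∃ (v : ℂ → Fin (n + 1) → ℂ) (w : ℂ → ℂ), Differentiable ℂ v ∧ Differentiable ℂ w ∧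
      (∀ t, v t ≠ 0 ∧ w t ^ 2 = eval (v t) F) ∧
      (∀ t, ∃ G ∈ S, eval (fun o => o.elim (w t) (v t)) G ≠ 0) ∧
      ∀ (G : MvPolynomial (Option (Fin (n + 1))) ℂ) (k : ℕ),
        G.IsWeightedHomogeneous (fun o => o.elim (n + 1) fun _ => 1) k →
        (∀ t, eval (fun o => o.elim (w t) (v t)) G = 0) →
          ∀ (p : Fin (n + 1) → ℂ) (u : ℂ), u ^ 2 = eval p F →
            eval (fun o => o.elim u p) G = 0 := by
  obtain ⟨m, rfl⟩ := Nat.exists_eq_add_of_le' hn
  obtain ⟨g, g1, g2, g3, g4⟩ := Pool.Agent.Lib.MP_cd3a7b_ag.H36.cy_all m F hF hs S hS h3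
  exact ⟨fun t => (g t).1, fun t => (g t).2, g1.fst, g1.snd, g2, g3, g4⟩
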