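import Pool.Agent.Lib.MP_cd3a7b_ag.Q5.All

/-!
Puncturing for an open set of smooth quintic threefolds.
-/

open MvPolynomial

/-- There is a ball of quintic forms `F` in five variables, all smooth, such that for every zero
set `Z` of a family `S` of forms generating an ideal of height at least three there is an entire
curve `t ↦ [v t]` in the quintic threefold `F = 0` that avoids `Z` and is Zariski dense. -/
theorem Pool.Agent.Results.MP_cd3a7b_ag.QuinticThreefolds.result :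
    ∃ (F₁ : MvPolynomial (Fin 5) ℂ) (δ : ℝ), F₁.IsHomogeneous 5 ∧ 0 < δ ∧
      ∀ F : MvPolynomial (Fin 5) ℂ, F.IsHomogeneous 5 → (∀ m, ‖coeff m F - coeff m F₁‖ < δ) →
        (∀ p : Fin 5 → ℂ, p ≠ 0 → eval p F = 0 → ∃ i, eval p (pderiv i F) ≠ 0) ∧
        ∀ S : Set (MvPolynomial (Fin 5) ℂ), (∀ G ∈ S, ∃ k, G.IsHomogeneous k) →
          3 ≤ (Ideal.span S).height →
          ∃ v : ℂ → Fin 5 → ℂ, Differentiable ℂ v ∧ (∀ t, v t ≠ 0 ∧ eval (v t) F = 0) ∧
            (∀ t, ∃ G ∈ S, eval (v t) G ≠ 0) ∧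
            ∀ (G : MvPolynomial (Fin 5) ℂ) (k : ℕ), G.IsHomogeneous k →
              (∀ t, eval (v t) G = 0) → F ∣ G :=
  Pool.Agent.Lib.MP_cd3a7b_ag.Q5.all
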