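import Pool.Agent.Lib.MP_cd3a7b_ag.H30Main

/-!
Puncturing for complements of simple normal crossings divisors of degree at most `n + 1` in `P^n`.
-/

open MvPolynomial

/-- Let `D = {F 1 ⋯ F r = 0}` be a simple normal crossings divisor of degree at most `n + 1` in
`P^n` and `Z` the zero set of a family `S` of polynomials that generates an ideal of height at
least two. There is an entire curve `t ↦ [v t]` in `P^n` that avoids `D` and `Z` and is Zariski
dense; its lift `v` is even Zariski dense in `ℂ^(n+1)`. -/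
theorem Pool.Agent.Results.MP_cd3a7b_ag.SncComplements.result (n r : ℕ) (hn : 1 ≤ n)
    (d : Fin r → ℕ) (F : Fin r → MvPolynomial (Fin (n + 1)) ℂ) (hd : ∀ i, 1 ≤ d i)
    (hF : ∀ i, (F i).IsHomogeneous (d i)) (hdeg : ∑ i, d i ≤ n + 1)
    (hsnc : ∀ x : Fin (n + 1) → ℂ, x ≠ 0 → LinearIndependent ℂ
      fun i : {i : Fin r // eval x (F i) = 0} => fun j : Fin (n + 1) => eval x (pderiv j (F i)))
    (S : Set (MvPolynomial (Fin (n + 1)) ℂ)) (hS : 2 ≤ (Ideal.span S).height) :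
    ∃ v : ℂ → Fin (n + 1) → ℂ, Differentiable ℂ v ∧ (∀ t, v t ≠ 0) ∧
      (∀ t i, eval (v t) (F i) ≠ 0) ∧ (∀ t, ∃ G ∈ S, eval (v t) G ≠ 0) ∧
      ∀ G : MvPolynomial (Fin (n + 1)) ℂ, (∀ t, eval (v t) G = 0) → G = 0 := by
  obtain ⟨m, rfl⟩ := Nat.exists_eq_add_of_le' hn
  obtain ⟨k, hk⟩ := Nat.exists_eq_add_of_le hdeg
  have e : ∀ i, d i - 1 + 1 = d i := fun i => Nat.sub_add_cancel (hd i)
  exact Pool.Agent.Lib.MP_cd3a7b_ag.H30.curve_le hS k (d := fun i => d i - 1)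
    (fun i => (e i).symm ▸ hF i) (by simp only [e]; exact hk.symm)
    fun x hx => Pool.Agent.Lib.MP_cd3a7b_ag.H30.trans_of_indep (hsnc x hx)
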